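import Pool.Agent.P8H32.LW.PinkG

/-!
# MP_28d749_ag: Pink's conjecture for families of subvarieties of the powers of elliptic schemes, with the
# tropicalizations along ARBITRARY hypersurfaces of the space of parameters: the exceptional parameters are
# pronull

**The families** are those of `ManyParameters`. The base is the space of all
`z = (b_1, b_2, …, b_{2+r}) ∈ ℂ^(2+r)` with `4 b_1³ + 27 b_2² ≠ 0`, the fibre at `z` is the `q`-th power of
the elliptic curve `y² = x³ + b_1 x + b_2` (`curve`). A family is a finite system of polynomials in the
coordinates `(b, x(P_1), …, x(P_q))` and `N` auxiliary coordinates with the exponents `supp j` and the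
coefficients `a j β`, polynomials with integral coefficients in parameters `t_i`, `i ∈ ι`; the member
`X_t` (`OnX`) is the set of the points `(P_1, …, P_q)`, with all `P_l` different from the origin, for which
there is a `y ∈ ℂ^N` with which all the equations with the coefficients evaluated at `t` hold.

Let `f_1, …, f_M` be ANY polynomials with integral coefficients in the parameters which are irreducible
over `ℚ`, in any number of variables and of any degree, absolutely irreducible or not (for instance
`t_1`, `t_1 ^ 2 + t_2 ^ 2`, `t_1 ^ 3 - 2 t_2 ^ 3`, `t_1 t_2 - t_3 t_4 - 1`). Each coefficient has an order
along the hypersurface `f_l = 0`, the exact power of `f_l` which divides it (`OrderAlong`). The condition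
`GenericP` is the one of `ManyParameters`: for every set `T` of coordinates and every `ρ ≥ 0` with
`|T| + ρ = m + 1` there are an `l` and rational numbers `τ_i`, `i ∈ T`, such that every point `w` of the
tropicalization of the family along `f_l = 0` with `w_i = τ_i` for `i ∈ T` is `ρ`-independent.

**Theorem.** The exceptional parameters, for which the member `X_t` has an atypical intersection with
algebraic subgroups of the fibres (the negation of `NoAtypicalP`), are a pronull set (`ProNull`): for every
`M₀` the closure of this set in the product of the `ℤ_p^ι` over the primes `p` that do not divide `M₀` has
Haar measure zero. In other words: for every `M₀` and `ε > 0` there is a `q` prime to `M₀` such that the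
exceptional parameters are in at most `ε q ^ |ι|` residue classes modulo `q`. In particular they have
density zero in boxes.

The starting theorems `ManyParameters`, `RandomOrbits` and `MetricSequences` are about hypersurfaces which
are of degree one in the distinguished parameter `t_0`. For hypersurfaces of higher degree already the
density of the exceptional parameters is new. Being pronull is the property which gives the theorem for
the parameters in random orbits of thin groups, in arbitrary metric sequences and at the convergents of
normal numbers (other result files).

The proof. A member is good if for each `l` a prime `p` divides `f_l(t)` exactly once and does not divide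
`G_l(t)`, where `G_l` is not divisible by `f_l` (local criterion of the starting library, in the form for
orders along arbitrary irreducible polynomials). The new step: the set of the `t` for which there is no such
prime is pronull. By Gauss's lemma `f` is coprime to `G` and to its derivative as a polynomial in one of the
variables over the field of rational functions in the others, and the integral model `R` of the function
field of `f = 0` has a number field `L` such that the number of the homomorphisms of `R` to `𝔽_p` which do
not kill `G ∂f` is `p^s · |Hom(𝓞_L, 𝔽_p)| + O(p^(s - 1/2))` (theorem of Landau, Lang and Weil from the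
starting library); over each of these nonsingular points there are `p^s (p - 1)` vectors modulo `p ^ 2` at
which `f` is divisible exactly once by `p`. The sum of `1/p` over the primes with `Hom(𝓞_L, 𝔽_p) ≠ ∅`
diverges, and the local criterion for pronull sets of the starting library applies.
-/

set_option autoImplicit false

namespace Pool.Agent.Results.MP_28d749_ag.AllHypersurfaces

open Pool.Agent.R424.MP Pool.Agent.R424.PT Pool.Agent.N24.RW
open Pool.Agent.P8H32.LW (OrderAlong pinkG_null)
open Pool.Agent.Results.MP_28d749_ag.RandomMultisections (curve)

/-- **Pink's conjecture for families, tropicalizations along arbitrary hypersurfaces of the space of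
parameters: the exceptional parameters are pronull.** -/
theorem result (ι : Type) [Fintype ι] (r q N m M : ℕ) (κ : Type) [Finite κ]
    (supp : κ → Finset ((Coord r q ⊕ Fin N) →₀ ℕ))
    (a : κ → ((Coord r q ⊕ Fin N) →₀ ℕ) → MvPolynomial ι ℤ) (f : Fin M → MvPolynomial ι ℤ)
    (hf : ∀ l, Irreducible ((f l).map (Int.castRingHom ℚ)))
    (e : Fin M → κ → ((Coord r q ⊕ Fin N) →₀ ℕ) → ℕ)
    (he : ∀ l j, ∀ β ∈ supp j, OrderAlong (f l) (a j β) (e l j β)) (hgen : GenericP m supp e) :
    ProNull {t : ι → ℤ | ¬ NoAtypicalP m
      (OnX supp (fun j β => ((MvPolynomial.eval t (a j β) : ℤ) : ℂ)) :
        ∀ z : Fin 2 ⊕ Fin r → ℂ, (Fin q → (curve (z (Sum.inl 0)) (z (Sum.inl 1))).Point) →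
          Prop)} :=
  pinkG_null supp a f hf e he hgen

end Pool.Agent.Results.MP_28d749_ag.AllHypersurfaces
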