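import Pool.Agent.P8H32.LW.PinkG
import Pool.Agent.N53.CF.All

/-!
# MP_28d749_ag: Pink's conjecture for the members of two-parameter families of subvarieties of the powers
# of elliptic schemes at the numerators and denominators of the convergents of a normal continued fraction

**The families** are those of `ManyParameters`, with two parameters. The base is the space of all
`z = (b_1, b_2, …, b_{2+r}) ∈ ℂ^(2+r)` with `4 b_1³ + 27 b_2² ≠ 0`, the fibre at `z` is the `q`-th power of
the elliptic curve `y² = x³ + b_1 x + b_2` (`curve`). A family is a finite system of polynomials in the
coordinates `(b, x(P_1), …, x(P_q))` and `N` auxiliary coordinates with the exponents `supp j` and the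
coefficients `a j β`, polynomials with integral coefficients in two parameters; the member
`X_t` (`OnX`) is the set of the points `(P_1, …, P_q)`, with all `P_l` different from the origin, for which
there is a `y ∈ ℂ^N` with which all the equations with the coefficients evaluated at `t` hold. Let
`f_1, …, f_M` be any polynomials with integral coefficients in the two parameters which are irreducible
over `ℚ`. Each coefficient has an order along the curve `f_l = 0`, the exact power of `f_l` which divides
it (`OrderAlong`). The condition `GenericP` on the tropicalizations of the family along these curves is the
one of `ManyParameters`.

A number `α` in `(0, 1)` is continued fraction normal (`CFNormal`) if it is irrational and its orbit under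
the Gauss map is distributed according to the Gauss measure `dx / ((1 + x) log 2)`. Let
`p_n / q_n = [0; a_1, …, a_n]` be the convergents of `α`, `cvg (dig α) n = (p_n, q_n)`.

**Theorem.** Let `α` be any continued fraction normal number. There is ONE set `E` of indices of natural
density zero such that for ALL families as above with two parameters (all `r`, `q`, `N`, `m`, all systems of
equations, all irreducible `f_l`) the member `X_t` with `t = (p_n, q_n)` has no atypical intersection with
algebraic subgroups of the fibres (`NoAtypicalP`), for all but finitely many `n ∉ E` (`PinkGoodAll`). Almost
all real numbers in `(0, 1)` are continued fraction normal.

The convergents grow exponentially: only `O(log B)` parameters of the box `|t_i| ≤ B` occur, and the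
condition on `α` has nothing to do with the families. The starting results are about the number of the
exceptional parameters in boxes (`ManyParameters`), about almost all random orbits (`RandomOrbits`) and
about almost all metric sequences (`MetricSequences`), all with hypersurfaces of degree one in one of the
parameters; here nothing is random, for example `α` can be the normal number of Adler, Keane and
Smorodinsky.

The proof. A member is good if for each `l` a prime `p` divides `f_l(t)` exactly once and does not divide
`G_l(t)`, where `G_l` is not divisible by `f_l`. The set of the `t` for which this is not true is pronull:
Gauss's lemma, the theorem of Landau, Lang and Weil for the number of the points of `f_l = 0` modulo `p`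
and the count of the vectors modulo `p ^ 2` above them, see `AllHypersurfaces` for this step. By the theorem
of the project CF of the starting library the convergents of a normal continued fraction are in a given
pronull set only for indices of density zero; there are countably many pairs `(f, G)`, and a diagonal
argument gives one set `E`.
-/

set_option autoImplicit false

namespace Pool.Agent.Results.MP_28d749_ag.ConvergentsOfNormalNumbers

open MeasureTheory Filter Topology
open Pool.Agent.P8H32.LW (PinkGoodAll BadGE badGE_null pinkG_master DatG)
open Pool.Agent.N53.CF (CFNormal cvg)
open Pool.Agent.W811.Stu (gauss dig)

theorem result :
    (∀ α : ℝ, CFNormal α → PinkGoodAll (cvg (dig α))) ∧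
    (∀ᵐ α ∂(volume.restrict (Set.Ioo (0 : ℝ) 1)), CFNormal α) :=
  ⟨fun α hα => pinkG_master fun x => Pool.Agent.N53.CF.main _ (badGE_null x) α hα,
    Pool.Agent.N53.CF.t_TYP⟩

end Pool.Agent.Results.MP_28d749_ag.ConvergentsOfNormalNumbers
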