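import Pool.Agent.P8H32.LW.PinkG
import Pool.Agent.N24.RW.All
import Pool.Agent.N24.KM.All

/-!
# MP_28d749_ag: Pink's conjecture for families of subvarieties of the powers of elliptic schemes along
# arbitrary sequences of parameters, for almost all multipliers, with the tropicalizations along ARBITRARY
# hypersurfaces of the space of parameters

**The families** are those of `ManyParameters`. The base is the space of all
`z = (b_1, b_2, …, b_{2+r}) ∈ ℂ^(2+r)` with `4 b_1³ + 27 b_2² ≠ 0`, the fibre at `z` is the `q`-th power of
the elliptic curve `y² = x³ + b_1 x + b_2` (`curve`). A family is a finite system of polynomials in the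
coordinates `(b, x(P_1), …, x(P_q))` and `N` auxiliary coordinates with the exponents `supp j` and the
coefficients `a j β`, polynomials with integral coefficients in parameters `t_i`, `i ∈ ι`; the member
`X_t` (`OnX`) is the set of the points `(P_1, …, P_q)`, with all `P_l` different from the origin, for which
there is a `y ∈ ℂ^N` with which all the equations with the coefficients evaluated at `t` hold. Let
`f_1, …, f_M` be any polynomials with integral coefficients in the parameters which are irreducible over
`ℚ`. Each coefficient has an order along the hypersurface `f_l = 0`, the exact power of `f_l` which divides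
it (`OrderAlong`). The condition `GenericP` on the tropicalizations of the family along these hypersurfaces
is the one of `ManyParameters`.

A sequence `c_0, c_1, …` of vectors of parameters is good (`PinkGoodAll`) if there is ONE set `E` of
indices of density zero such that for ALL families as above (all `r`, `q`, `N`, `m`, all systems of
equations, all irreducible `f_l`) the member with the parameters `c_n` has no atypical intersection with
algebraic subgroups of the fibres (`NoAtypicalP`), for all but finitely many `n ∉ E`.

**Theorem.**
1. Let `f_{i,0}, f_{i,1}, …` (`i ∈ ι`) be functions which satisfy the hypothesis of Koksma's theorem on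
   `[a_i, b_i]` (`Koksma`). Then `c_n = (⌊f_{i,n}(α_i)⌋)_i` is good for almost all `α` with
   `a_i ≤ α_i ≤ b_i`.
2. Let `a_{i,0}, a_{i,1}, …` (`i ∈ ι`) be ANY sequences of real numbers with mutual distances at least
   `δ > 0`. Then `c_n = (⌊a_{i,n} α_i⌋)_i` is good for almost all `α`.
3. Let `k_0, k_1, …` be ANY sequence of different natural numbers, and `ξ_i ≠ 0`. Then
   `c_n = (⌊ξ_i α_i ^ k_n⌋)_i` is good for almost all `α` with all `α_i > 1`.

The starting theorem `MetricSequences` proves this for hypersurfaces which are of degree one in the
distinguished parameter `t_0`; the new part are the families whose degenerations are along hypersurfaces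
of higher degree, for which the prime divisors of the values of nonlinear polynomials are needed.

The proof. A member is good if for each `l` a prime `p` divides `f_l(t)` exactly once and does not divide
`G_l(t)`, where `G_l` is not divisible by `f_l`. The set of the `t` for which this is not true is pronull:
Gauss's lemma, the theorem of Landau, Lang and Weil for the number of the points of `f_l = 0` modulo `p`
and the count of the vectors modulo `p ^ 2` above them, see `AllHypersurfaces` for this step. By the theorem
of Koksma in several variables (project KM of the starting library) almost all metric sequences are in a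
given pronull set only for indices of density zero; there are countably many pairs `(f, G)`, and a diagonal
argument gives one set `E`.
-/

set_option autoImplicit false

namespace Pool.Agent.Results.MP_28d749_ag.MetricSequencesAllHypersurfaces

open MeasureTheory Filter Topology
open Pool.Agent.P8H32.LW (PinkGoodAll BadGE badGE_null pinkG_master DatG)
open Pool.Agent.N24.KM (Koksma)

theorem result (ι : Type) [Fintype ι] :
    (∀ (a b : ι → ℝ) (f : ι → ℕ → ℝ → ℝ), (∀ i, a i < b i) → (∀ i, Koksma (a i) (b i) (f i)) →
      ∀ᵐ α : ι → ℝ, (∀ i, α i ∈ Set.Icc (a i) (b i)) → PinkGoodAll (fun n i => ⌊f i n (α i)⌋)) ∧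
    (∀ (a : ι → ℕ → ℝ) (δ : ℝ), 0 < δ → (∀ i m n, m ≠ n → δ ≤ |a i m - a i n|) →
      ∀ᵐ α : ι → ℝ, PinkGoodAll (fun n i => ⌊a i n * α i⌋)) ∧
    (∀ (k : ℕ → ℕ) (ξ : ι → ℝ), Function.Injective k → (∀ i, ξ i ≠ 0) →
      ∀ᵐ α : ι → ℝ, (∀ i, 1 < α i) → PinkGoodAll (fun n i => ⌊ξ i * α i ^ k n⌋)) :=
  Pool.Agent.N18.KM.parts Pool.Agent.N24.KM.main (κ := DatG ι) BadGE badGE_null PinkGoodAll
    fun _ hc => pinkG_master hc

end Pool.Agent.Results.MP_28d749_ag.MetricSequencesAllHypersurfaces
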