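import Pool.Agent.P8H32.LW.PinkG
import Pool.Agent.N24.RW.All

/-!
# MP_28d749_ag: Pink's conjecture for families of subvarieties of the powers of elliptic schemes along the
# random orbits of Zariski dense groups, with the tropicalizations along ARBITRARY hypersurfaces of the space
# of parameters

**The families** are those of `ManyParameters`. The base is the space of all
`z = (b_1, b_2, …, b_{2+r}) ∈ ℂ^(2+r)` with `4 b_1³ + 27 b_2² ≠ 0`, the fibre at `z` is the `q`-th power of
the elliptic curve `y² = x³ + b_1 x + b_2` (`curve`). A family is a finite system of polynomials in the
coordinates `(b, x(P_1), …, x(P_q))` and `N` auxiliary coordinates with the exponents `supp j` and the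
coefficients `a j β`, polynomials with integral coefficients in parameters `t_i`, `i ∈ ι`; the member
`X_t` (`OnX`) is the set of the points `(P_1, …, P_q)`, with all `P_l` different from the origin, for which
there is a `y ∈ ℂ^N` with which all the equations with the coefficients evaluated at `t` hold.

Let `f_1, …, f_M` be ANY polynomials with integral coefficients in the parameters which are irreducible
over `ℚ`, in any number of variables and of any degree, absolutely irreducible or not (for instance
`t_1`, `t_1 ^ 2 + t_2 ^ 2`, `t_1 ^ 3 - 2 t_2 ^ 3`, `t_1 t_2 - t_3 t_4 - 1`). Each coefficient has an order
along the hypersurface `f_l = 0`, the exact power of `f_l` which divides it (`OrderAlong`). The condition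
`GenericP` is the one of `ManyParameters`: for every set `T` of coordinates and every `ρ ≥ 0` with
`|T| + ρ = m + 1` there are an `l` and rational numbers `τ_i`, `i ∈ T`, such that every point `w` of the
tropicalization of the family along `f_l = 0` with `w_i = τ_i` for `i ∈ T` is `ρ`-independent.

**Theorem.** Let `s_0, …, s_m'` be matrices in `SL_ι(ℤ)`, `|ι| ≥ 2`, which generate `SL_ι(ℤ/q)` for all `q`
prime to some `q₀` (`Walk`; by strong approximation it is enough that they generate a Zariski dense
subgroup, possibly of infinite index). For almost all sequences `w` of indices and all `v ≠ 0` in `ℤ^ι` there
is ONE set `E` of density zero such that for ALL families as above (all `r`, `q`, `N`, `m`, all systems of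
equations, all irreducible `f_l`): for all but finitely many `n` outside `E` the member with the parameters
`s_(w (n-1)) ⋯ s_(w 0) v` has no atypical intersection with algebraic subgroups (`PinkGoodAll`).

The starting theorem `RandomOrbits` proves this for hypersurfaces which are of degree one in the
distinguished parameter `t_0`, and `ManyParameters` bounds for such hypersurfaces the number of the
exceptional parameters in boxes. For hypersurfaces of higher degree already the density of the exceptional
parameters is new.

The proof. A member is good if for each `l` a prime `p` divides `f_l(t)` exactly once and does not divide
`G_l(t)`, where `G_l` is not divisible by `f_l` (local criterion of the starting library, in the form for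
orders along arbitrary irreducible polynomials). The new step: the set of the `t` for which there is no such
prime is pronull. By Gauss's lemma `f` is coprime to `G` and to its derivative as a polynomial in one of the
variables over the field of rational functions in the others, and the integral model `R` of the function
field of `f = 0` has a number field `L` such that the number of the homomorphisms of `R` to `𝔽_p` which do
not kill `G ∂f` is `p^s · |Hom(𝓞_L, 𝔽_p)| + O(p^(s - 1/2))` (theorem of Landau, Lang and Weil from the
starting library); over each of these nonsingular points there are `p^s (p - 1)` vectors modulo `p ^ 2` at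
which `f` is divisible exactly once by `p`. The sum of `1/p` over the primes with `Hom(𝓞_L, 𝔽_p) ≠ ∅`
diverges, and the local criterion for pronull sets applies. Random orbits visit pronull sets almost never
(starting library), there are countably many pairs `(f, G)`, and a diagonal argument gives one set `E`.
-/

set_option autoImplicit false

namespace Pool.Agent.Results.MP_28d749_ag.RandomOrbitsAllHypersurfaces

open Pool.Agent.N24.RW MeasureTheory Filter Topology
open Pool.Agent.P8H32.LW (PinkGoodAll BadGE badGE_null pinkG_master DatG)

/-- **Pink's conjecture for families along random orbits, tropicalizations along arbitrary hypersurfaces of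
the space of parameters.** -/
theorem result (ι : Type) [Fintype ι] [DecidableEq ι] (hι : 2 ≤ Fintype.card ι) (W : Walk ι) :
    ∀ᵐ w ∂(words W.m), ∀ v : ι → ℤ, v ≠ 0 → PinkGoodAll (orb W v w) := by
  refine ae_all_iff.2 fun v => ?_
  by_cases hv : v = 0
  · exact ae_of_all _ fun w h => absurd hv h
  have h1 : ∀ᵐ w ∂(words W.m), ∀ x : DatG ι, Pool.Agent.N24.KM.Rarely (orb W v w) (BadGE x) :=
    ae_all_iff.2 fun x => main ι hι W v hv _ (badGE_null x)
  filter_upwards [h1] with w hw _
  exact pinkG_master hw

end Pool.Agent.Results.MP_28d749_ag.RandomOrbitsAllHypersurfaces
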